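import Mathlib

set_option autoImplicit false

namespace Pool.Agent.Q168.BPB

open Filter Topology Set

/-- Ekeland's variational principle for continuous functions bounded below. -/
theorem ekeland {X : Type*} [MetricSpace X] [CompleteSpace X] (φ : X → ℝ) (hφ : Continuous φ)
    (m : ℝ) (hm : ∀ x, m ≤ φ x) (δ : ℝ) (hδ : 0 < δ) (x₀ : X) :
    ∃ y, φ y + δ * dist y x₀ ≤ φ x₀ ∧ ∀ x, φ y ≤ φ x + δ * dist x y := by
  set S : X → Set X := fun x => {z | φ z + δ * dist z x ≤ φ x} with hS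
  have hself : ∀ x, x ∈ S x := fun x => by
    simp only [hS, Set.mem_ofPred_eq, dist_self, mul_zero, add_zero, le_refl]
  have htrans : ∀ x z w, z ∈ S x → w ∈ S z → w ∈ S x := by
    intro x z w hz hw
    simp only [hS, Set.mem_ofPred_eq] at hz hw ⊢
    have := dist_triangle w z x
    nlinarith [mul_le_mul_of_nonneg_left this hδ.le]
  have hclosed : ∀ x, IsClosed (S x) := fun x =>
    isClosed_le (hφ.add (continuous_const.mul (continuous_id.dist continuous_const)))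
      continuous_const
  have hnext : ∀ (x : X) (n : ℕ), ∃ z ∈ S x, ∀ w ∈ S x, φ z ≤ φ w + (1 / 2) ^ n := by
    intro x n
    have hb : BddBelow (φ '' S x) := ⟨m, by rintro _ ⟨w, _, rfl⟩; exact hm w⟩
    have hne : (φ '' S x).Nonempty := ⟨_, x, hself x, rfl⟩
    obtain ⟨_, ⟨z, hz, rfl⟩, hlt⟩ := Real.lt_sInf_add_pos hne
      (show (0 : ℝ) < (1 / 2) ^ n by positivity)
    refine ⟨z, hz, fun w hw => ?_⟩
    have := csInf_le hb ⟨w, hw, rfl⟩
    linarith
  choose nxt hn1 hn2 using hnext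
  let u : ℕ → X := fun n => Nat.rec x₀ (fun n x => nxt x n) n
  have hu : ∀ n, u (n + 1) = nxt (u n) n := fun n => rfl
  have hmem : ∀ n k, u (n + k) ∈ S (u n) := by
    intro n k
    induction k with
    | zero => exact hself _
    | succ k ih =>
      refine htrans _ _ _ ih ?_
      have : u (n + (k + 1)) = nxt (u (n + k)) (n + k) := hu (n + k)
      rw [this]; exact hn1 _ _
  have hsmall : ∀ n, ∀ w ∈ S (u (n + 1)), dist w (u (n + 1)) ≤ (1 / δ) * (1 / 2) ^ n := by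
    intro n w hw
    have h1 : w ∈ S (u n) := htrans _ _ _ (hmem n 1) hw
    have h2 := hn2 (u n) n w h1
    rw [← hu] at h2
    have h3 : φ w + δ * dist w (u (n + 1)) ≤ φ (u (n + 1)) := hw
    rw [div_mul_eq_mul_div, one_mul, le_div_iff₀ hδ]
    linarith
  have hcauchy : CauchySeq (fun n => u (n + 1)) := by
    apply cauchySeq_of_le_geometric (1 / 2) (1 / δ) (by norm_num)
    intro n
    rw [dist_comm]
    exact hsmall n _ (hmem (n + 1) 1)
  obtain ⟨y, hy⟩ := cauchySeq_tendsto_of_complete hcauchy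
  have hyS : ∀ n, y ∈ S (u n) := by
    intro n
    apply (hclosed (u n)).mem_of_tendsto hy
    filter_upwards [eventually_ge_atTop n] with k hk
    obtain ⟨j, rfl⟩ := Nat.exists_eq_add_of_le hk
    have := hmem n (j + 1)
    rwa [← add_assoc] at this
  refine ⟨y, hyS 0, fun x => ?_⟩
  by_cases hx : x ∈ S y
  · have h1 : ∀ n, φ (u (n + 1)) ≤ φ x + (1 / 2) ^ n := by
      intro n
      rw [hu]
      exact hn2 _ _ _ (htrans _ _ _ (hyS n) hx)
    have h2 : Tendsto (fun n => φ (u (n + 1))) atTop (𝓝 (φ y)) := (hφ.tendsto y).comp hy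
    have h3 : Tendsto (fun n : ℕ => φ x + (1 / 2 : ℝ) ^ n) atTop (𝓝 (φ x + 0)) :=
      tendsto_const_nhds.add (tendsto_pow_atTop_nhds_zero_of_lt_one (by norm_num) (by norm_num))
    have h4 := le_of_tendsto_of_tendsto' h2 h3 h1
    have h5 : 0 ≤ δ * dist x y := mul_nonneg hδ.le dist_nonneg
    linarith
  · have : φ y < φ x + δ * dist x y := by
      by_contra hcon
      push Not at hcon
      exact hx hcon
    exact this.le

section HB

variable {E : Type*} [NormedAddCommGroup E] [NormedSpace ℝ E]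

/-- A sandwich (Fenchel duality) lemma. -/
theorem sandwich (U W : Set E) (hU : Convex ℝ U) (hW : Convex ℝ W) (hWo : IsOpen W)
    (hne : (U ∩ W).Nonempty) (f : E →L[ℝ] ℝ) (F : E → ℝ) (hF : ConcaveOn ℝ univ F)
    (hFc : Continuous F) (h0 : ∀ v ∈ U ∩ W, f v + F v ≤ 0) :
    ∃ φ : E →L[ℝ] ℝ, ∀ v ∈ U, ∀ u ∈ W, φ (v - u) + f v + F u ≤ 0 := by
  obtain ⟨v₀, hv₀U, hv₀W⟩ := hne
  set A : Set (E × ℝ) := {p | ∃ v ∈ U, v - p.1 ∈ W ∧ p.2 < f v + F (v - p.1)} with hA
  have hAo : IsOpen A := by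
    have : A = ⋃ v ∈ U, {p : E × ℝ | v - p.1 ∈ W ∧ p.2 < f v + F (v - p.1)} := by
      ext p
      simp only [hA, Set.mem_ofPred_eq, Set.mem_iUnion, exists_prop]
    rw [this]
    refine isOpen_iUnion fun v => isOpen_iUnion fun _ => ?_
    have h1 : IsOpen {p : E × ℝ | v - p.1 ∈ W} :=
      hWo.preimage (continuous_const.sub continuous_fst)
    have h2 : IsOpen {p : E × ℝ | p.2 < f v + F (v - p.1)} :=
      isOpen_lt continuous_snd
        (continuous_const.add (hFc.comp (continuous_const.sub continuous_fst)))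
    exact h1.inter h2
  have hAc : Convex ℝ A := by
    rintro p ⟨v, hv, hvW, hvs⟩ q ⟨w, hw, hwW, hws⟩ a b ha hb hab
    refine ⟨a • v + b • w, hU hv hw ha hb hab, ?_, ?_⟩
    · have : a • v + b • w - (a • p + b • q).1 = a • (v - p.1) + b • (w - q.1) := by
        simp only [Prod.fst_add, Prod.smul_fst, smul_sub]; abel
      rw [this]
      exact hW hvW hwW ha hb hab
    · have : a • v + b • w - (a • p + b • q).1 = a • (v - p.1) + b • (w - q.1) := by
        simp only [Prod.fst_add, Prod.smul_fst, smul_sub]; abel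
      rw [this]
      have h1 := hF.2 (mem_univ (v - p.1)) (mem_univ (w - q.1)) ha hb hab
      simp only [Prod.snd_add, Prod.smul_snd, smul_eq_mul, map_add, map_smul] at h1 ⊢
      rcases eq_or_lt_of_le ha with h | h
      · have hb1 : b = 1 := by linarith
        subst h; subst hb1
        simp only [zero_mul, one_mul, zero_add] at h1 ⊢
        linarith
      · nlinarith [mul_le_mul_of_nonneg_left hws.le hb]
  have h00 : (0 : E × ℝ) ∉ A := by
    rintro ⟨v, hv, hvW, hvs⟩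
    simp only [Prod.fst_zero, sub_zero, Prod.snd_zero] at hvW hvs
    linarith [h0 v ⟨hv, hvW⟩]
  obtain ⟨Λ, hΛ⟩ := geometric_hahn_banach_open_point hAc hAo h00
  rw [map_zero] at hΛ
  have hdec : ∀ (d : E) (s : ℝ), Λ (d, s) = Λ (d, 0) + s * Λ (0, 1) := by
    intro d s
    have : ((d, s) : E × ℝ) = (d, 0) + s • ((0, 1) : E × ℝ) := by
      ext <;> simp
    rw [this, map_add, map_smul, smul_eq_mul]
  set c := Λ (0, 1) with hc
  have hcpos : 0 < c := by
    have hmem : ((0, f v₀ + F v₀ - 1) : E × ℝ) ∈ A :=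
      ⟨v₀, hv₀U, by simpa using hv₀W, by simp⟩
    have h1 := hΛ _ hmem
    rw [hdec] at h1
    have h2 : Λ ((0 : E), (0 : ℝ)) = 0 := map_zero Λ
    rw [h2, zero_add] at h1
    have h3 := h0 v₀ ⟨hv₀U, hv₀W⟩
    by_contra hcon
    push Not at hcon
    nlinarith
  refine ⟨c⁻¹ • (Λ.comp (ContinuousLinearMap.inl ℝ E ℝ)), ?_⟩
  intro v hv u hu
  have key : Λ (v - u, 0) + (f v + F u) * c ≤ 0 := by
    apply le_of_forall_pos_le_add
    intro η hη
    have hmem : ((v - u, f v + F u - η / c) : E × ℝ) ∈ A := by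
      refine ⟨v, hv, by simpa using hu, ?_⟩
      have : v - (v - u) = u := by abel
      simp only [this]
      have : 0 < η / c := by positivity
      linarith
    have h1 := hΛ _ hmem
    rw [hdec, sub_mul, div_mul_cancel₀ _ hcpos.ne'] at h1
    linarith
  have h1 : (c⁻¹ • (Λ.comp (ContinuousLinearMap.inl ℝ E ℝ))) (v - u) = c⁻¹ * Λ (v - u, 0) := by
    simp
  rw [h1]
  have h2 : c⁻¹ * (Λ (v - u, 0) + (f v + F u) * c) ≤ 0 :=
    mul_nonpos_of_nonneg_of_nonpos (inv_nonneg.2 hcpos.le) key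
  have h3 : c⁻¹ * (Λ (v - u, 0) + (f v + F u) * c) = c⁻¹ * Λ (v - u, 0) + f v + F u := by
    field_simp
    ring
  linarith

theorem norm_le_of_ball (g : E →L[ℝ] ℝ) (C : ℝ) (h : ∀ v, ‖v‖ < 1 → g v ≤ C) : ‖g‖ ≤ C := by
  rw [← ContinuousLinearMap.sSup_unit_ball_eq_norm]
  refine csSup_le ⟨_, 0, by simp, rfl⟩ ?_
  rintro _ ⟨v, hv, rfl⟩
  rw [Metric.mem_ball, dist_zero_right] at hv
  simp only [Real.norm_eq_abs]
  refine abs_le'.2 ⟨h v hv, ?_⟩
  have := h (-v) (by rwa [norm_neg])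
  rwa [map_neg] at this

theorem apply_le (g : E →L[ℝ] ℝ) (v : E) (hv : ‖v‖ ≤ 1) : g v ≤ ‖g‖ := by
  have h1 := g.le_opNorm v
  rw [Real.norm_eq_abs] at h1
  have h2 := le_abs_self (g v)
  nlinarith [norm_nonneg g]

/-- The (sharp, known) Bishop–Phelps–Bollobás theorem. -/
theorem bpb [CompleteSpace E] (x : E) (hx : ‖x‖ ≤ 1) (f : E →L[ℝ] ℝ) (hf : ‖f‖ = 1)
    (δ : ℝ) (hδ : 0 < δ) (hδ2 : δ < 2) (hfx : 1 - δ < f x) :
    ∃ (y : E) (g : E →L[ℝ] ℝ), ‖y‖ = 1 ∧ ‖g‖ = 1 ∧ g y = 1 ∧ ‖x - y‖ < √(2 * δ) ∧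
      ‖f - g‖ ≤ √(2 * δ) := by
  set k := √(δ / 2) with hk
  have hk0 : 0 < k := Real.sqrt_pos.2 (by positivity)
  have hk2 : k ^ 2 = δ / 2 := Real.sq_sqrt (by positivity)
  have hk1 : k < 1 := by
    by_contra hcon
    push Not at hcon
    nlinarith
  have h2k : √(2 * δ) = 2 * k := by
    rw [hk, show (2 : ℝ) * δ = 2 ^ 2 * (δ / 2) by ring, Real.sqrt_mul (by norm_num),
      Real.sqrt_sq (by norm_num)]
  have : CompleteSpace (Metric.closedBall (0 : E) 1) :=
    Metric.isClosed_closedBall.completeSpace_coe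
  have hxB : x ∈ Metric.closedBall (0 : E) 1 := by
    rw [Metric.mem_closedBall, dist_zero_right]; exact hx
  obtain ⟨⟨y, hyB⟩, hy1, hy2⟩ := ekeland (X := Metric.closedBall (0 : E) 1)
    (fun z => - f z.1) (f.continuous.comp continuous_subtype_val).neg (-1) (by
      rintro ⟨z, hz⟩
      rw [Metric.mem_closedBall, dist_zero_right] at hz
      have := apply_le f z hz
      simp only
      linarith) k hk0 ⟨x, hxB⟩
  simp only [Subtype.dist_eq, dist_eq_norm] at hy1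
  have hy2' : ∀ v : E, ‖v‖ ≤ 1 → f v - f y ≤ k * ‖v - y‖ := by
    intro v hv
    have := hy2 ⟨v, by rw [Metric.mem_closedBall, dist_zero_right]; exact hv⟩
    simp only [Subtype.dist_eq, dist_eq_norm] at this
    linarith
  rw [Metric.mem_closedBall, dist_zero_right] at hyB
  -- sandwich
  obtain ⟨φ, hφ⟩ := sandwich (Metric.ball (0 : E) 1) univ (convex_ball _ _) convex_univ isOpen_univ
    ⟨0, by simp⟩ f (fun u => - f y - k * ‖u - y‖) (by
      refine ⟨convex_univ, ?_⟩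
      intro u _ w _ a b ha hb hab
      have h1 : a • u + b • w - y = a • (u - y) + b • (w - y) := by
        have : y = a • y + b • y := by rw [← add_smul, hab, one_smul]
        nth_rw 1 [this]
        rw [smul_sub, smul_sub]; abel
      have h2 : ‖a • u + b • w - y‖ ≤ a * ‖u - y‖ + b * ‖w - y‖ := by
        rw [h1]
        refine (norm_add_le _ _).trans ?_
        rw [norm_smul, norm_smul, Real.norm_of_nonneg ha, Real.norm_of_nonneg hb]
      simp only [smul_eq_mul]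
      have h3 := mul_le_mul_of_nonneg_left h2 hk0.le
      have h4 : a * (-f y - k * ‖u - y‖) + b * (-f y - k * ‖w - y‖)
        = -f y * (a + b) - k * (a * ‖u - y‖ + b * ‖w - y‖) := by ring
      rw [h4, hab]
      linarith) (by fun_prop) (by
      rintro v ⟨hv, -⟩
      rw [Metric.mem_ball, dist_zero_right] at hv
      have := hy2' v hv.le
      linarith)
  have hmain : ∀ v : E, ‖v‖ < 1 → ∀ w : E, (f + φ) v ≤ (f + φ) y + φ w + k * ‖w‖ := by
    intro v hv w
    have h1 := hφ v (by rw [Metric.mem_ball, dist_zero_right]; exact hv) (y + w) (mem_univ _)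
    simp only [add_sub_cancel_left, map_sub, map_add] at h1
    simp only [add_apply]
    linarith
  set ζ := f + φ with hζ
  have hζy : ‖ζ‖ ≤ ζ y := norm_le_of_ball ζ _ (fun v hv => by
    have := hmain v hv 0
    simpa using this)
  have hφk : ‖φ‖ ≤ k := by
    have h1 : ∀ w : E, 0 ≤ φ w + k * ‖w‖ := by
      intro w
      by_contra hcon
      push Not at hcon
      -- scale
      have h2 : ∀ t : ℝ, 0 < t → 0 ≤ ζ y + t * (φ w + k * ‖w‖) := by
        intro t ht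
        have := hmain 0 (by simp) (t • w)
        rw [map_zero, map_smul, norm_smul, Real.norm_of_nonneg ht.le, smul_eq_mul] at this
        linarith
      have h3 := h2 ((ζ y + 1) / (-(φ w + k * ‖w‖))) (by
        have : 0 ≤ ζ y := (norm_nonneg ζ).trans hζy
        apply div_pos <;> linarith)
      rw [div_mul_eq_mul_div, div_neg, mul_div_cancel_right₀ _ hcon.ne] at h3
      linarith
    apply norm_le_of_ball
    intro v hv
    have := h1 (-v)
    rw [map_neg, norm_neg] at this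
    nlinarith
  have hζ1 : ‖f‖ - ‖φ‖ ≤ ‖ζ‖ := by
    have : ‖f‖ = ‖ζ - φ‖ := by rw [hζ, add_sub_cancel_right]
    rw [this]
    linarith [norm_sub_le ζ φ]
  have hζ2 : ‖ζ‖ ≤ ‖f‖ + ‖φ‖ := norm_add_le _ _
  have hζpos : 0 < ‖ζ‖ := by linarith
  have hζy2 : ζ y ≤ ‖ζ‖ * ‖y‖ := (le_abs_self _).trans (ζ.le_opNorm y)
  have hy1' : ‖y‖ = 1 := by
    apply le_antisymm hyB
    by_contra hcon
    push Not at hcon
    nlinarith
  have hζeq : ζ y = ‖ζ‖ := by
    rw [hy1', mul_one] at hζy2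
    linarith
  refine ⟨y, ‖ζ‖⁻¹ • ζ, hy1', ?_, ?_, ?_, ?_⟩
  · rw [norm_smul, norm_inv, norm_norm, inv_mul_cancel₀ hζpos.ne']
  · rw [smul_apply, hζeq, smul_eq_mul, inv_mul_cancel₀ hζpos.ne']
  · rw [h2k]
    have h1 : k * ‖y - x‖ ≤ f y - f x := by linarith
    have h2 := apply_le f y hyB
    rw [norm_sub_rev] at h1
    have h3 : k * ‖x - y‖ < k * (2 * k) := by nlinarith
    exact lt_of_mul_lt_mul_left h3 hk0.le
  · rw [h2k]
    have h1 : f - ‖ζ‖⁻¹ • ζ = -φ + (1 - ‖ζ‖⁻¹) • ζ := by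
      rw [hζ]; module
    rw [h1]
    refine (norm_add_le _ _).trans ?_
    rw [norm_neg, norm_smul, Real.norm_eq_abs]
    have h2 : |1 - ‖ζ‖⁻¹| * ‖ζ‖ = |‖ζ‖ - 1| := by
      rw [← abs_of_pos hζpos, ← abs_mul, abs_of_pos hζpos, sub_mul, one_mul,
        inv_mul_cancel₀ hζpos.ne']
    rw [h2]
    have h3 : |‖ζ‖ - 1| ≤ k := by
      rw [abs_le]; constructor <;> linarith
    linarith

/-- Decomposition of a functional adapted to the ball and its translate. -/
theorem decomp (x : E) (hx : ‖x‖ ≤ 1) (f : E →L[ℝ] ℝ) (θ : ℝ) (hθ : 0 < θ) :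
    ∃ (g₁ g₂ : E →L[ℝ] ℝ) (y : E), f = g₁ + g₂ ∧ ‖y‖ ≤ 1 ∧ ‖y - x‖ ≤ 1 ∧
      ‖g₁‖ + ‖g₂‖ + g₂ x ≤ ‖f‖ ∧ ‖g₁‖ - θ < g₁ y ∧ ‖g₂‖ - θ < g₂ (y - x) := by
  set C : Set E := {v | ‖v‖ ≤ 1 ∧ ‖v - x‖ ≤ 1} with hC
  have hmid : ‖(1 / 2 : ℝ) • x‖ < 1 := by
    rw [norm_smul, Real.norm_of_nonneg (by norm_num)]; linarith
  have hmid2 : ‖(1 / 2 : ℝ) • x - x‖ < 1 := by
    have : (1 / 2 : ℝ) • x - x = (-(1 / 2) : ℝ) • x := by
      rw [neg_smul]
      have : x = (1 / 2 : ℝ) • x + (1 / 2 : ℝ) • x := by rw [← add_smul]; norm_num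
      nth_rw 2 [this]; abel
    rw [this, norm_smul, norm_neg, Real.norm_of_nonneg (by norm_num)]; linarith
  have hCne : (f '' C).Nonempty := ⟨_, (1 / 2 : ℝ) • x, ⟨hmid.le, hmid2.le⟩, rfl⟩
  have hCb : BddAbove (f '' C) := ⟨‖f‖, by rintro _ ⟨v, hv, rfl⟩; exact apply_le f v hv.1⟩
  set m := sSup (f '' C) with hm
  have hmf : m ≤ ‖f‖ := csSup_le hCne (by rintro _ ⟨v, hv, rfl⟩; exact apply_le f v hv.1)
  obtain ⟨φ, hφ⟩ := sandwich (Metric.ball (0 : E) 1) (Metric.ball x 1) (convex_ball _ _)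
    (convex_ball _ _) Metric.isOpen_ball ⟨(1 / 2 : ℝ) • x, by
      rw [Metric.mem_ball, dist_zero_right]; exact hmid, by
      rw [Metric.mem_ball, dist_eq_norm]; exact hmid2⟩ f (fun _ => -m)
      (concaveOn_const _ convex_univ) continuous_const (by
      rintro v ⟨hv, hv2⟩
      rw [Metric.mem_ball, dist_zero_right] at hv
      rw [Metric.mem_ball, dist_eq_norm] at hv2
      have := le_csSup hCb ⟨v, ⟨hv.le, hv2.le⟩, rfl⟩
      linarith)
  have h1 : ∀ v : E, ‖v‖ < 1 → ∀ w : E, ‖w‖ < 1 → (f + φ) v + (-φ) x + (-φ) w ≤ m := by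
    intro v hv w hw
    have := hφ v (by rw [Metric.mem_ball, dist_zero_right]; exact hv) (x + w)
      (by rw [Metric.mem_ball, dist_eq_norm, add_sub_cancel_left]; exact hw)
    simp only [map_sub, map_add] at this
    simp only [add_apply, neg_apply]
    linarith
  have h2 : ‖f + φ‖ + ‖-φ‖ + (-φ) x ≤ m := by
    have h3 : ∀ w : E, ‖w‖ < 1 → ‖f + φ‖ ≤ m - (-φ) x - (-φ) w := by
      intro w hw
      apply norm_le_of_ball
      intro v hv
      linarith [h1 v hv w hw]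
    have h4 : ‖-φ‖ ≤ m - (-φ) x - ‖f + φ‖ := by
      apply norm_le_of_ball
      intro w hw
      linarith [h3 w hw]
    linarith
  obtain ⟨_, ⟨y, hy, rfl⟩, hym⟩ := exists_lt_of_lt_csSup hCne (show m - θ < m by linarith)
  refine ⟨f + φ, -φ, y, by abel, hy.1, hy.2, h2.trans hmf, ?_, ?_⟩
  · have h5 := apply_le (-φ) (y - x) hy.2
    have h6 : f y = (f + φ) y + (-φ) (y - x) + (-φ) x := by
      simp only [add_apply, neg_apply, map_sub]; ring
    linarith
  · have h5 := apply_le (f + φ) y hy.1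
    have h6 : f y = (f + φ) y + (-φ) (y - x) + (-φ) x := by
      simp only [add_apply, neg_apply, map_sub]; ring
    linarith

/-- Bound `1` for all pairs. -/
theorem bound_one [CompleteSpace E] (x : E) (hx : ‖x‖ = 1) (f : E →L[ℝ] ℝ) (hf : ‖f‖ = 1)
    (hfx : 0 ≤ f x) (δ : ℝ) (hδ : 1 < δ) :
    ∃ (y : E) (g : E →L[ℝ] ℝ), ‖y‖ = 1 ∧ ‖g‖ = 1 ∧ |g y| = 1 ∧ ‖x - y‖ < δ ∧ ‖f - g‖ < δ := by
  -- choose θ
  obtain ⟨θ, hθ, hθ2, hθs⟩ : ∃ θ : ℝ, 0 < θ ∧ 2 * θ < 2 ∧ √(2 * (2 * θ)) < δ - 1 := by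
    refine ⟨min (1 / 2) ((δ - 1) ^ 2 / 8), ?_, ?_, ?_⟩
    · have : 0 < δ - 1 := by linarith
      positivity
    · have := min_le_left (1 / 2 : ℝ) ((δ - 1) ^ 2 / 8)
      linarith
    · have h0 : 0 < δ - 1 := by linarith
      have := min_le_right (1 / 2 : ℝ) ((δ - 1) ^ 2 / 8)
      rw [Real.sqrt_lt' h0]
      nlinarith [pow_pos h0 2]
  obtain ⟨g₁, g₂, y, hfg, hy1, hyx, hsum, hg1, hg2⟩ := decomp x hx.le f θ hθ
  set a := ‖g₁‖ with ha
  set b := ‖g₂‖ with hb
  have hab : 1 ≤ a + b := by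
    rw [← hf, hfg]; exact norm_add_le _ _
  have hg1x := apply_le g₁ x hx.le
  have hg2x : -b ≤ g₂ x := by
    have := apply_le g₂ (-x) (by rw [norm_neg]; exact hx.le)
    rw [map_neg] at this
    linarith
  have hfx' : f x = g₁ x + g₂ x := by rw [hfg]; rfl
  have ha1 : a ≤ 1 := by linarith
  have hb1 : b ≤ 1 := by linarith
  rcases le_or_gt b a with hba | hba
  · have hapos : 0 < a := by linarith
    have hn : ‖a⁻¹ • g₁‖ = 1 := by
      rw [norm_smul, norm_inv, Real.norm_of_nonneg hapos.le, ← ha, inv_mul_cancel₀ hapos.ne']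
    obtain ⟨z, g, hz, hg, hgz, hyz, hgg⟩ := bpb y hy1 (a⁻¹ • g₁) hn (2 * θ) (by positivity) hθ2 (by
      rw [smul_apply, smul_eq_mul]
      have h1 : a⁻¹ * (a - θ) < a⁻¹ * g₁ y := mul_lt_mul_of_pos_left hg1 (inv_pos.2 hapos)
      rw [mul_sub, inv_mul_cancel₀ hapos.ne'] at h1
      have h2 : a⁻¹ ≤ 2 := by
        rw [inv_le_comm₀ hapos (by norm_num)]; linarith
      nlinarith)
    refine ⟨z, g, hz, hg, by rw [hgz, abs_one], ?_, ?_⟩
    · have h1 : x - z = (x - y) + (y - z) := by abel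
      rw [h1]
      have h2 := norm_add_le (x - y) (y - z)
      rw [norm_sub_rev] at hyx
      linarith
    · have h1 : f - g = ((1 - a⁻¹) • g₁ + g₂) + (a⁻¹ • g₁ - g) := by
        rw [hfg]; module
      rw [h1]
      have h2 := norm_add_le ((1 - a⁻¹) • g₁ + g₂) (a⁻¹ • g₁ - g)
      have h3 := norm_add_le ((1 - a⁻¹) • g₁) g₂
      have h4 : ‖(1 - a⁻¹) • g₁‖ = 1 - a := by
        rw [norm_smul, Real.norm_eq_abs, ← ha, abs_of_nonpos, neg_sub, sub_mul, one_mul,
          inv_mul_cancel₀ hapos.ne']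
        rw [sub_nonpos]
        exact (one_le_inv₀ hapos).2 ha1
      linarith
  · have hbpos : 0 < b := by linarith
    have hn : ‖(-b⁻¹) • g₂‖ = 1 := by
      rw [norm_smul, norm_neg, norm_inv, Real.norm_of_nonneg hbpos.le, ← hb,
        inv_mul_cancel₀ hbpos.ne']
    obtain ⟨z, g, hz, hg, hgz, hyz, hgg⟩ := bpb (x - y) (by rw [norm_sub_rev]; exact hyx)
      ((-b⁻¹) • g₂) hn (2 * θ) (by positivity) hθ2 (by
      rw [smul_apply, smul_eq_mul]
      have h0 : -b⁻¹ * g₂ (x - y) = b⁻¹ * g₂ (y - x) := by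
        rw [map_sub, map_sub]; ring
      rw [h0]
      have h1 : b⁻¹ * (b - θ) < b⁻¹ * g₂ (y - x) := mul_lt_mul_of_pos_left hg2 (inv_pos.2 hbpos)
      rw [mul_sub, inv_mul_cancel₀ hbpos.ne'] at h1
      have h2 : b⁻¹ ≤ 2 := by
        rw [inv_le_comm₀ hbpos (by norm_num)]; linarith
      nlinarith)
    refine ⟨z, -g, hz, by rw [norm_neg, hg], by
      rw [neg_apply, hgz, abs_neg, abs_one], ?_, ?_⟩
    · have h1 : x - z = y + ((x - y) - z) := by abel
      rw [h1]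
      have h2 := norm_add_le y ((x - y) - z)
      linarith
    · have h1 : f - -g = (g₁ + (1 - b⁻¹) • g₂) - ((-b⁻¹) • g₂ - g) := by
        rw [hfg]; module
      rw [h1]
      have h2 := norm_sub_le (g₁ + (1 - b⁻¹) • g₂) ((-b⁻¹) • g₂ - g)
      have h3 := norm_add_le g₁ ((1 - b⁻¹) • g₂)
      have h4 : ‖(1 - b⁻¹) • g₂‖ = 1 - b := by
        rw [norm_smul, Real.norm_eq_abs, ← hb, abs_of_nonpos, neg_sub, sub_mul, one_mul,
          inv_mul_cancel₀ hbpos.ne']
        rw [sub_nonpos]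
        exact (one_le_inv₀ hbpos).2 hb1
      linarith

end HB

end Pool.Agent.Q168.BPB
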